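import Pool.Agent.W217.BE.Stm

set_option autoImplicit false

namespace Pool.Agent.W212.BEGRCUT

open Pool.Agent.W217.BE

section pr

variable {A : Type} [CommRing A] {M : Type} [AddCommGroup M] [Module A M] {I : Type}
  [DecidableEq I] {ℳ : I → Submodule A M}

theorem bij (h : DirectSum.IsInternal ℳ) : Function.Bijective (DirectSum.coeLinearMap ℳ) := h

/-- projection onto the sum of the pieces with index in `P` -/
noncomputable def pr (h : DirectSum.IsInternal ℳ) (P : I → Prop) [DecidablePred P] : M →ₗ[A] M :=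
  (DirectSum.toModule A I M (fun a => if P a then (ℳ a).subtype else 0)) ∘ₗ
    (LinearEquiv.ofBijective (DirectSum.coeLinearMap ℳ) (bij h)).symm.toLinearMap

theorem pr_of_mem (h : DirectSum.IsInternal ℳ) (P : I → Prop) [DecidablePred P] {a : I} {x : M}
    (hx : x ∈ ℳ a) : pr h P x = if P a then x else 0 := by
  have h1 : (LinearEquiv.ofBijective (DirectSum.coeLinearMap ℳ) (bij h)).symm x =
      DirectSum.lof A I (fun i => ℳ i) a ⟨x, hx⟩ := by
    rw [LinearEquiv.symm_apply_eq, LinearEquiv.ofBijective_apply, DirectSum.coeLinearMap_lof]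
  unfold pr
  rw [LinearMap.comp_apply, LinearEquiv.coe_coe, h1, DirectSum.toModule_lof]
  split_ifs <;> rfl

theorem hind (h : DirectSum.IsInternal ℳ) (C : M → Prop) (h0 : C 0)
    (hadd : ∀ x y, C x → C y → C (x + y)) (hmem : ∀ a, ∀ x ∈ ℳ a, C x) (x : M) : C x := by
  have hx : x ∈ iSup ℳ := by
    rw [h.submodule_iSup_eq_top]
    trivial
  exact Submodule.iSup_induction ℳ (motive := C) hx hmem h0 hadd

theorem pr_pr (h : DirectSum.IsInternal ℳ) (P : I → Prop) [DecidablePred P] (x : M) :
    pr h P (pr h P x) = pr h P x := by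
  refine hind h (fun x => pr h P (pr h P x) = pr h P x) ?_ ?_ ?_ x
  · simp
  · intro x y hx hy
    simp only [map_add, hx, hy]
  · intro a x hx
    rw [pr_of_mem h P hx]
    split_ifs with hP
    · rw [pr_of_mem h P hx, if_pos hP]
    · simp

end pr

section main

variable {A κ : Type} [CommRing A] [IsNoetherianRing A] [Field κ] {χ : A →+* κ} {k : ℕ}
  {M : Type} [AddCommGroup M] [Module A M] [Module (MvPolynomial (Fin (k + 1)) A) M]
  [IsScalarTower A (MvPolynomial (Fin (k + 1)) A) M]
  {ℳ : (Fin (k + 1) → ℤ) → Submodule A M}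

/-- projection onto a slab -/
noncomputable def pt (h : DirectSum.IsInternal ℳ) (t : ℤ) : M →ₗ[A] M := pr h (fun a => a 0 = t)

omit [IsNoetherianRing A] [Module (MvPolynomial (Fin (k + 1)) A) M]
  [IsScalarTower A (MvPolynomial (Fin (k + 1)) A) M] in
theorem pt_of_mem (h : DirectSum.IsInternal ℳ) (t : ℤ) {a : Fin (k + 1) → ℤ} {x : M}
    (hx : x ∈ ℳ a) : pt h t x = if a 0 = t then x else 0 := pr_of_mem h _ hx

omit [IsNoetherianRing A] [Module (MvPolynomial (Fin (k + 1)) A) M]
  [IsScalarTower A (MvPolynomial (Fin (k + 1)) A) M] in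
theorem pt_pt (h : DirectSum.IsInternal ℳ) (t : ℤ) (x : M) : pt h t (pt h t x) = pt h t x :=
  pr_pr h _ x

omit [IsNoetherianRing A] [IsScalarTower A (MvPolynomial (Fin (k + 1)) A) M] in
theorem X_succ_pt (h : DirectSum.IsInternal ℳ)
    (hX : ∀ j a x, x ∈ ℳ a →
      (MvPolynomial.X j : MvPolynomial (Fin (k + 1)) A) • x ∈ ℳ (a + Pi.single j 1))
    (t : ℤ) (j : Fin k) (x : M) :
    pt h t ((MvPolynomial.X j.succ : MvPolynomial (Fin (k + 1)) A) • x) =
      (MvPolynomial.X j.succ : MvPolynomial (Fin (k + 1)) A) • pt h t x := by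
  refine hind h (fun x => pt h t ((MvPolynomial.X j.succ : MvPolynomial (Fin (k + 1)) A) • x) =
      (MvPolynomial.X j.succ : MvPolynomial (Fin (k + 1)) A) • pt h t x) ?_ ?_ ?_ x
  · simp
  · intro x y hx hy
    simp only [smul_add, map_add, hx, hy]
  · intro a x hx
    rw [pt_of_mem h t hx, pt_of_mem h t (hX j.succ a x hx)]
    have e : (a + Pi.single j.succ 1 : Fin (k + 1) → ℤ) 0 = a 0 := by
      simp [(Fin.succ_ne_zero j).symm]
    rw [e]
    split_ifs
    · rfl
    · simp

omit [IsNoetherianRing A] [IsScalarTower A (MvPolynomial (Fin (k + 1)) A) M] in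
theorem X_zero_pt (h : DirectSum.IsInternal ℳ)
    (hX : ∀ j a x, x ∈ ℳ a →
      (MvPolynomial.X j : MvPolynomial (Fin (k + 1)) A) • x ∈ ℳ (a + Pi.single j 1))
    (t : ℤ) (x : M) :
    pt h (t + 1) ((MvPolynomial.X 0 : MvPolynomial (Fin (k + 1)) A) • x) =
      (MvPolynomial.X 0 : MvPolynomial (Fin (k + 1)) A) • pt h t x := by
  refine hind h (fun x => pt h (t + 1) ((MvPolynomial.X 0 : MvPolynomial (Fin (k + 1)) A) • x) =
      (MvPolynomial.X 0 : MvPolynomial (Fin (k + 1)) A) • pt h t x) ?_ ?_ ?_ x
  · simp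
  · intro x y hx hy
    simp only [smul_add, map_add, hx, hy]
  · intro a x hx
    rw [pt_of_mem h t hx, pt_of_mem h (t + 1) (hX 0 a x hx)]
    have e : (a + Pi.single 0 1 : Fin (k + 1) → ℤ) 0 = a 0 + 1 := by
      simp
    rw [e]
    by_cases hat : a 0 = t
    · rw [if_pos hat, if_pos (by rw [hat])]
    · rw [if_neg hat, if_neg (by intro h2; exact hat (by linarith))]
      simp

omit [IsNoetherianRing A] in
theorem rename_pt (h : DirectSum.IsInternal ℳ)
    (hX : ∀ j a x, x ∈ ℳ a →
      (MvPolynomial.X j : MvPolynomial (Fin (k + 1)) A) • x ∈ ℳ (a + Pi.single j 1))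
    (t : ℤ) (q : MvPolynomial (Fin k) A) (x : M) :
    pt h t (MvPolynomial.rename Fin.succ q • x) = MvPolynomial.rename Fin.succ q • pt h t x := by
  induction q using MvPolynomial.induction_on generalizing x with
  | C a =>
    rw [MvPolynomial.rename_C]
    have e : ∀ y : M, (MvPolynomial.C a : MvPolynomial (Fin (k + 1)) A) • y = a • y := by
      intro y
      rw [← mul_one (MvPolynomial.C a : MvPolynomial (Fin (k + 1)) A), ← MvPolynomial.smul_eq_C_mul,
        smul_assoc, one_smul]
    rw [e, e, map_smul]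
  | add p q hp hq => rw [map_add, add_smul, add_smul, map_add, hp, hq]
  | mul_X p j hp =>
    rw [map_mul, MvPolynomial.rename_X, mul_smul, mul_smul, hp, X_succ_pt h hX]

/-- the module structure on a slab -/
@[reducible] noncomputable def modN (h : DirectSum.IsInternal ℳ)
    (hX : ∀ j a x, x ∈ ℳ a →
      (MvPolynomial.X j : MvPolynomial (Fin (k + 1)) A) • x ∈ ℳ (a + Pi.single j 1))
    (t : ℤ) : Module (MvPolynomial (Fin k) A) (LinearMap.range (pt h t)) where
  smul q x := ⟨MvPolynomial.rename Fin.succ q • (x : M), by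
    obtain ⟨y, hy⟩ := x.2
    exact ⟨MvPolynomial.rename Fin.succ q • y, by rw [rename_pt h hX, hy]⟩⟩
  one_smul x := Subtype.ext (by
    show MvPolynomial.rename Fin.succ (1 : MvPolynomial (Fin k) A) • (x : M) = x
    rw [map_one, one_smul])
  mul_smul p q x := Subtype.ext (by
    show MvPolynomial.rename Fin.succ (p * q) • (x : M) =
      MvPolynomial.rename Fin.succ p • MvPolynomial.rename Fin.succ q • (x : M)
    rw [map_mul, mul_smul])
  smul_zero q := Subtype.ext (by
    show MvPolynomial.rename Fin.succ q • (0 : M) = 0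
    rw [smul_zero])
  smul_add q x y := Subtype.ext (by
    show MvPolynomial.rename Fin.succ q • ((x : M) + y) =
      MvPolynomial.rename Fin.succ q • (x : M) + MvPolynomial.rename Fin.succ q • (y : M)
    rw [smul_add])
  add_smul p q x := Subtype.ext (by
    show MvPolynomial.rename Fin.succ (p + q) • (x : M) =
      MvPolynomial.rename Fin.succ p • (x : M) + MvPolynomial.rename Fin.succ q • (x : M)
    rw [map_add, add_smul])
  zero_smul x := Subtype.ext (by
    show MvPolynomial.rename Fin.succ (0 : MvPolynomial (Fin k) A) • (x : M) = 0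
    rw [map_zero, zero_smul])

/-- the grading of a slab -/
noncomputable def grN (h : DirectSum.IsInternal ℳ) (t : ℤ) (b : Fin k → ℤ) :
    Submodule A (LinearMap.range (pt h t)) :=
  (ℳ (Fin.cons t b)).comap (LinearMap.range (pt h t)).subtype

omit [IsNoetherianRing A] [Module (MvPolynomial (Fin (k + 1)) A) M]
  [IsScalarTower A (MvPolynomial (Fin (k + 1)) A) M] in
theorem grN_internal (h : DirectSum.IsInternal ℳ) (t : ℤ) :
    DirectSum.IsInternal (grN (k := k) h t) := by
  constructor
  · rw [injective_iff_map_eq_zero]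
    intro y hy
    have key : ∀ (y : DirectSum (Fin k → ℤ) fun b => grN h t b) (b : Fin k → ℤ),
        pr h (fun a => a = Fin.cons t b)
          ((DirectSum.coeAddMonoidHom (grN h t) y : LinearMap.range (pt h t)) : M) =
        ((y b : LinearMap.range (pt h t)) : M) := by
      intro y b
      induction y using DirectSum.induction_on with
      | zero => simp
      | of b' x =>
        rw [DirectSum.coeAddMonoidHom_of]
        have hx : ((x : LinearMap.range (pt h t)) : M) ∈ ℳ (Fin.cons t b') := x.2
        rw [pr_of_mem h _ hx]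
        by_cases hbb : b' = b
        · subst hbb
          rw [if_pos rfl, DirectSum.of_eq_same]
        · rw [if_neg, DirectSum.of_eq_of_ne _ _ _ (Ne.symm hbb)]
          · rfl
          · intro h2
            exact hbb (Fin.cons_injective2 h2).2
      | add x y hx hy =>
        rw [map_add, Submodule.coe_add, map_add, hx, hy]
        simp
    ext b
    have h1 := key y b
    rw [hy] at h1
    simp only [ZeroMemClass.coe_zero, map_zero] at h1
    rw [← h1]
    simp
  · have key : ∀ x : M, ∃ y : DirectSum (Fin k → ℤ) fun b => grN h t b,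
        ((DirectSum.coeAddMonoidHom (grN h t) y : LinearMap.range (pt h t)) : M) = pt h t x := by
      intro x
      refine hind h (fun x => ∃ y : DirectSum (Fin k → ℤ) fun b => grN h t b,
        ((DirectSum.coeAddMonoidHom (grN h t) y : LinearMap.range (pt h t)) : M) = pt h t x)
        ?_ ?_ ?_ x
      · exact ⟨0, by simp⟩
      · rintro x x' ⟨y, hy⟩ ⟨y', hy'⟩
        exact ⟨y + y', by rw [map_add, Submodule.coe_add, hy, hy', map_add]⟩
      · intro a x hx
        by_cases hat : a 0 = t
        · have hx1 : pt h t x = x := by rw [pt_of_mem h t hx, if_pos hat]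
          have hx2 : (⟨x, ⟨x, hx1⟩⟩ : LinearMap.range (pt h t)) ∈ grN h t (Fin.tail a) := by
            show x ∈ ℳ (Fin.cons t (Fin.tail a))
            rw [← hat, Fin.cons_self_tail]
            exact hx
          refine ⟨DirectSum.of (fun b => grN h t b) (Fin.tail a) ⟨_, hx2⟩, ?_⟩
          rw [DirectSum.coeAddMonoidHom_of, hx1]
        · exact ⟨0, by rw [pt_of_mem h t hx, if_neg hat]; simp⟩
    rintro ⟨_, ⟨x, rfl⟩⟩
    obtain ⟨y, hy⟩ := key x
    exact ⟨y, Subtype.ext hy⟩

end main

theorem main : GRCUT := by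
  intro A κ _ _ _ χ k M _ _ _ _ _ ℳ h hX hNZ top
  -- finitely many slabs
  have hfin : {a | ℳ a ≠ ⊥}.Finite := by
    have : IsNoetherian A M := isNoetherian_of_isNoetherianRing_of_finite A M
    exact WellFoundedGT.finite_ne_bot_of_iSupIndep h.submodule_iSupIndep
  set J : Finset ℤ := hfin.toFinset.image (fun a => a 0) with hJ
  have hJmem : ∀ t, (∃ x, pt h t x ≠ 0) → t ∈ J := by
    intro t ⟨x, hx⟩
    by_contra ht
    apply hx
    refine hind h (fun x => pt h t x = 0) (by simp) ?_ ?_ x
    · intro x y hx hy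
      rw [map_add, hx, hy, add_zero]
    · intro a x hx
      rw [pt_of_mem h t hx]
      split_ifs with hat
      · by_contra hx0
        apply ht
        rw [hJ, Finset.mem_image]
        refine ⟨a, ?_, hat⟩
        rw [Set.Finite.mem_toFinset]
        intro hbot
        have hx' := hx
        rw [hbot, Submodule.mem_bot] at hx'
        exact hx0 hx'
      · rfl
  have hsum : ∀ x, x = ∑ t ∈ J, pt h t x := by
    intro x
    refine hind h (fun x => x = ∑ t ∈ J, pt h t x) (by simp) ?_ ?_ x
    · intro x y hx hy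
      simp only [map_add, Finset.sum_add_distrib, ← hx, ← hy]
    · intro a x hx
      by_cases hx0 : x = 0
      · simp [hx0]
      have haJ : a 0 ∈ J := hJmem _ ⟨x, by rw [pt_of_mem h _ hx, if_pos rfl]; exact hx0⟩
      rw [Finset.sum_eq_single (a 0)]
      · rw [pt_of_mem h _ hx, if_pos rfl]
      · intro t _ hne
        rw [pt_of_mem h _ hx, if_neg (Ne.symm hne)]
      · intro hn
        exact absurd haJ hn
  -- the slabs that are nonzero at `χ`
  classical
  set T : Finset ℤ := J.filter (fun t => ∃ x, ∀ s : A, χ s ≠ 0 → s • pt h t x ≠ 0) with hT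
  have hTmem : ∀ t, (∃ x, ∀ s : A, χ s ≠ 0 → s • pt h t x ≠ 0) → t ∈ T := by
    intro t ⟨x, hx⟩
    rw [hT, Finset.mem_filter]
    refine ⟨hJmem t ⟨x, ?_⟩, x, hx⟩
    have := hx 1 (by simp)
    rwa [one_smul] at this
  have hTne : T.Nonempty := by
    by_contra hemp
    rw [Finset.not_nonempty_iff_eq_empty] at hemp
    have hall : ∀ t, ∀ x, ∃ s : A, χ s ≠ 0 ∧ s • pt h t x = 0 := by
      intro t x
      by_contra hcon
      push Not at hcon
      have : t ∈ T := hTmem t ⟨x, hcon⟩
      rw [hemp] at this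
      exact absurd this (Finset.notMem_empty _)
    obtain ⟨x, hx⟩ := hNZ
    choose s hs1 hs2 using fun t => hall t x
    apply hx (∏ t ∈ J, s t)
    · rw [map_prod]
      exact Finset.prod_ne_zero_iff.mpr fun t _ => hs1 t
    · rw [hsum x, Finset.smul_sum]
      refine Finset.sum_eq_zero fun t ht => ?_
      rw [← Finset.prod_erase_mul _ _ ht, mul_smul, hs2, smul_zero]
  -- uniform annihilator of a slab outside `T`
  have hunif : ∀ t, t ∉ T → ∃ s : A, χ s ≠ 0 ∧ ∀ x, s • pt h t x = 0 := by
    intro t ht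
    have hall : ∀ x, ∃ s : A, χ s ≠ 0 ∧ s • pt h t x = 0 := by
      intro x
      by_contra hcon
      push Not at hcon
      exact ht (hTmem t ⟨x, hcon⟩)
    obtain ⟨G, hG⟩ := (Module.Finite.fg_top : (⊤ : Submodule A M).FG)
    choose s hs1 hs2 using hall
    refine ⟨∏ g ∈ G, s g, ?_, ?_⟩
    · rw [map_prod]
      exact Finset.prod_ne_zero_iff.mpr fun t _ => hs1 t
    · intro x
      have hx : x ∈ Submodule.span A (G : Set M) := by rw [hG]; trivial
      induction hx using Submodule.span_induction with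
      | mem g hg =>
        rw [← Finset.prod_erase_mul _ _ hg, mul_smul, hs2, smul_zero]
      | zero => simp
      | add x y _ _ hx hy => rw [map_add, smul_add, hx, hy, add_zero]
      | smul a x _ hx => rw [map_smul, smul_comm, hx, smul_zero]
  have hTX : ∀ t ∈ T, ∃ x, ∀ s : A, χ s ≠ 0 → s • pt h t x ≠ 0 := fun t ht =>
    (Finset.mem_filter.mp ht).2
  -- the construction
  have build : ∀ (t : ℤ) (c d : A), t ∈ T → χ (c * d) ≠ 0 →
      (top = false → ∀ x, c • pt h t ((MvPolynomial.X 0 : MvPolynomial (Fin (k + 1)) A) • x) = 0) →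
      (top = true → ∀ x, (MvPolynomial.X 0 : MvPolynomial (Fin (k + 1)) A) • (d • pt h t x) = 0) →
      ∃ (N : Submodule A M) (_ : Module (MvPolynomial (Fin k) A) N)
      (_ : IsScalarTower A (MvPolynomial (Fin k) A) N)
      (𝒩 : (Fin k → ℤ) → Submodule A N) (π : M →ₗ[A] N) (ι : N →ₗ[A] M) (s : A),
      DirectSum.IsInternal 𝒩 ∧
      (∀ j a x, x ∈ 𝒩 a →
        (MvPolynomial.X j : MvPolynomial (Fin k) A) • x ∈ 𝒩 (a + Pi.single j 1)) ∧
      NZ χ N ∧ χ s ≠ 0 ∧ (∀ x, π (ι x) = s • x) ∧
      (∀ (q : MvPolynomial (Fin k) A) (x : N),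
        ι (q • x) = MvPolynomial.rename Fin.succ q • ι x) ∧
      (∀ (q : MvPolynomial (Fin k) A) (x : M),
        π (MvPolynomial.rename Fin.succ q • x) = q • π x) ∧
      (top = false → ∀ x, π ((MvPolynomial.X 0 : MvPolynomial (Fin (k + 1)) A) • x) = 0) ∧
      (top = true → ∀ x, (MvPolynomial.X 0 : MvPolynomial (Fin (k + 1)) A) • ι x = 0) := by
    intro t c d htT hcd hb ht
    have hfix : ∀ x : LinearMap.range (pt h t), pt h t x = x := by
      rintro ⟨_, y, rfl⟩
      exact pt_pt h t y
    let := modN h hX t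
    have hsm : ∀ (q : MvPolynomial (Fin k) A) (x : LinearMap.range (pt h t)),
        ((q • x : LinearMap.range (pt h t)) : M) = MvPolynomial.rename Fin.succ q • (x : M) :=
      fun q x => rfl
    refine ⟨LinearMap.range (pt h t), modN h hX t, ⟨fun a q x => Subtype.ext ?_⟩, grN h t,
      c • (pt h t).rangeRestrict, d • (LinearMap.range (pt h t)).subtype, c * d,
      grN_internal h t, ?_, ?_, hcd, ?_, ?_, ?_, ?_, ?_⟩
    · show ((a • q) • x : LinearMap.range (pt h t)).1 = _
      rw [hsm, Submodule.coe_smul, hsm, map_smul, smul_assoc]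
    · intro j a x hx
      show (((MvPolynomial.X j : MvPolynomial (Fin k) A) • x : LinearMap.range (pt h t)) : M) ∈
        ℳ (Fin.cons t (a + Pi.single j 1))
      rw [hsm, MvPolynomial.rename_X]
      have h1 := hX j.succ (Fin.cons t a) x hx
      have e : (Fin.cons t a + Pi.single j.succ 1 : Fin (k + 1) → ℤ) =
          Fin.cons t (a + Pi.single j 1) := by
        ext i
        refine Fin.cases ?_ (fun i => ?_) i
        · simp [(Fin.succ_ne_zero j).symm]
        · simp [Pi.single_apply]
      rw [e] at h1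
      exact h1
    · obtain ⟨x, hx⟩ := hTX t htT
      refine ⟨⟨pt h t x, x, rfl⟩, fun s hs h0 => hx s hs ?_⟩
      exact congrArg Subtype.val h0
    · intro x
      apply Subtype.ext
      show c • pt h t (d • (x : M)) = (c * d) • (x : M)
      rw [map_smul, hfix, mul_smul]
    · intro q x
      show d • ((q • x : LinearMap.range (pt h t)) : M) =
        MvPolynomial.rename Fin.succ q • (d • (x : M))
      rw [hsm, smul_comm]
    · intro q x
      apply Subtype.ext
      show c • pt h t (MvPolynomial.rename Fin.succ q • x) =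
        MvPolynomial.rename Fin.succ q • (c • pt h t x)
      rw [rename_pt h hX, smul_comm]
    · intro htop x
      apply Subtype.ext
      exact hb htop x
    · intro htop x
      show (MvPolynomial.X 0 : MvPolynomial (Fin (k + 1)) A) • (d • (x : M)) = 0
      have := ht htop x
      rwa [hfix] at this
  cases top
  · -- lowest slab
    have h1 : T.min' hTne - 1 ∉ T := by
      intro hm
      have := T.min'_le _ hm
      omega
    obtain ⟨s, hs, hs0⟩ := hunif _ h1
    refine build (T.min' hTne) s 1 (T.min'_mem hTne) (by rwa [mul_one]) ?_ (by simp)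
    intro _ x
    have h2 := X_zero_pt h hX (T.min' hTne - 1) x
    rw [sub_add_cancel] at h2
    rw [h2, smul_comm, hs0, smul_zero]
  · have h1 : T.max' hTne + 1 ∉ T := by
      intro hm
      have := T.le_max' _ hm
      omega
    obtain ⟨s, hs, hs0⟩ := hunif _ h1
    refine build (T.max' hTne) 1 s (T.max'_mem hTne) (by rwa [one_mul]) (by simp) ?_
    intro _ x
    have h2 := X_zero_pt h hX (T.max' hTne) x
    rw [smul_comm, ← h2, hs0]

end Pool.Agent.W212.BEGRCUT
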