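import Pool.Agent.W527.PC.Stm

/-!
# The argument with indices (project PC, problem MP_7de521_nt)
-/

namespace Pool.Agent.W212.PCINDEX

open Pool.Agent.W527.PC

/-- the index of the subgroup of `p`-th powers -/
noncomputable def pin (p : ℕ) (G : Type*) [CommGroup G] : ℕ :=
  (powMonoidHom p : G →* G).range.index

theorem pin_eq_of_inj {G G' : Type*} [CommGroup G] [CommGroup G'] (p : ℕ) (ι : G' →* G)
    (hι : Function.Injective ι) (hfin : ι.range.index ≠ 0)
    (hp : Function.Injective (powMonoidHom p : G →* G)) : pin p G' = pin p G := by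
  have h1 : (powMonoidHom p : G' →* G').range.map ι = ι.range.map (powMonoidHom p : G →* G) := by
    rw [MonoidHom.map_range, MonoidHom.map_range]
    congr 1
    ext g
    simp
  have h2 := Subgroup.index_map (powMonoidHom p : G' →* G').range ι
  have h3 := Subgroup.index_map ι.range (powMonoidHom p : G →* G)
  rw [h1, h3, (MonoidHom.ker_eq_bot_iff _).mpr hι, (MonoidHom.ker_eq_bot_iff _).mpr hp, sup_bot_eq,
    sup_bot_eq, mul_comm] at h2
  exact (Nat.eq_of_mul_eq_mul_right (Nat.pos_of_ne_zero hfin) h2).symm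

theorem pin_pi (p : ℕ) [Fact p.Prime] (R : Type*) [CommRing R] (π : R →+* ZMod p)
    (hπ : Function.Surjective π) (hk : ∀ r, π r = 0 → ∃ s, r = (p : R) * s) (ℓ : ℕ) :
    pin p (Multiplicative (Fin ℓ → R)) = p ^ ℓ := by
  let F : (Fin ℓ → R) →+ (Fin ℓ → ZMod p) :=
    { toFun := fun f i => π (f i)
      map_zero' := by ext i; simp
      map_add' := fun f g => by ext i; simp }
  let F' : Multiplicative (Fin ℓ → R) →* Multiplicative (Fin ℓ → ZMod p) :=
    AddMonoidHom.toMultiplicative F
  have hF : Function.Surjective F' := by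
    intro g
    choose f hf using fun i => hπ (Multiplicative.toAdd g i)
    refine ⟨Multiplicative.ofAdd f, ?_⟩
    show Multiplicative.ofAdd (F f) = g
    have : F f = Multiplicative.toAdd g := funext hf
    rw [this]
    rfl
  have hker : F'.ker = (powMonoidHom p : Multiplicative (Fin ℓ → R) →* _).range := by
    ext f
    rw [MonoidHom.mem_ker, MonoidHom.mem_range]
    constructor
    · intro h
      have h' : ∀ i, π (Multiplicative.toAdd f i) = 0 := fun i =>
        congrFun (congrArg Multiplicative.toAdd h) i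
      choose s hs using fun i => hk _ (h' i)
      refine ⟨Multiplicative.ofAdd s, ?_⟩
      show Multiplicative.ofAdd (p • s) = f
      have : p • s = Multiplicative.toAdd f := by
        ext i
        rw [Pi.smul_apply, nsmul_eq_mul, ← hs]
      rw [this]
      rfl
    · rintro ⟨g, rfl⟩
      show Multiplicative.ofAdd (F (p • Multiplicative.toAdd g)) = 1
      have : F (p • Multiplicative.toAdd g) = 0 := by
        rw [map_nsmul]
        ext i
        rw [Pi.smul_apply, nsmul_eq_mul]
        simp
      rw [this]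
      rfl
  unfold pin
  rw [← hker, Subgroup.index_ker, MonoidHom.range_eq_top.mpr hF, Subgroup.card_top]
  have : Nat.card (Multiplicative (Fin ℓ → ZMod p)) = Nat.card (Fin ℓ → ZMod p) :=
    Nat.card_congr Multiplicative.toAdd
  rw [this, Nat.card_pi]
  simp

theorem pin_int (p : ℕ) [Fact p.Prime] (ℓ : ℕ) : pin p (Multiplicative (Fin ℓ → ℤ)) = p ^ ℓ := by
  refine pin_pi p ℤ (Int.castRingHom (ZMod p)) (ZMod.intCast_surjective) ?_ ℓ
  intro r hr
  have h : ((r : ℤ) : ZMod p) = 0 := hr
  rw [ZMod.intCast_zmod_eq_zero_iff_dvd] at h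
  exact h

theorem pin_padic (p : ℕ) [Fact p.Prime] (ℓ : ℕ) :
    pin p (Multiplicative (Fin ℓ → ℤ_[p])) = p ^ ℓ := by
  refine pin_pi p ℤ_[p] PadicInt.toZMod ?_ ?_ ℓ
  · exact ZMod.ringHom_surjective _
  · intro r hr
    have h : r ∈ RingHom.ker (PadicInt.toZMod (p := p)) := hr
    rw [PadicInt.ker_toZMod, PadicInt.maximalIdeal_eq_span_p, Ideal.mem_span_singleton] at h
    exact h

theorem t_INDEX : S_INDEX := by
  intro A _ _ _ _ Λ p _ ℓ ⟨e⟩ hC hinj ⟨x, hxΛ, hxc, hxn⟩
  rintro ⟨H, H', hH, hH', ⟨e'⟩⟩
  have hp0 : p ≠ 0 := (Fact.out : p.Prime).ne_zero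
  -- injectivity of the power map
  have hpC : Function.Injective (powMonoidHom p : Λ.topologicalClosure →* Λ.topologicalClosure) := by
    rw [injective_iff_map_eq_one]
    intro a ha
    have ha' : a ^ p = 1 := ha
    have := hinj a a.2 (by rw [← Subgroup.coe_pow, ha']; rfl)
    exact Subtype.ext this
  have hpZ : Function.Injective
      (powMonoidHom p : Multiplicative (Fin ℓ → ℤ_[p]) →* Multiplicative (Fin ℓ → ℤ_[p])) := by
    rw [injective_iff_map_eq_one]
    intro a ha
    have ha' : p • Multiplicative.toAdd a = 0 := ha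
    have : Multiplicative.toAdd a = 0 := by
      ext i
      have h := congrFun ha' i
      rw [Pi.smul_apply, nsmul_eq_mul, Pi.zero_apply, mul_eq_zero] at h
      exact h.resolve_left (by exact_mod_cast hp0)
    exact this
  have hpI : Function.Injective
      (powMonoidHom p : Multiplicative (Fin ℓ → ℤ) →* Multiplicative (Fin ℓ → ℤ)) := by
    rw [injective_iff_map_eq_one]
    intro a ha
    have ha' : p • Multiplicative.toAdd a = 0 := ha
    have : Multiplicative.toAdd a = 0 := by
      ext i
      have h := congrFun ha' i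
      rw [Pi.smul_apply, nsmul_eq_mul, Pi.zero_apply, mul_eq_zero] at h
      exact h.resolve_left (by exact_mod_cast hp0)
    exact this
  -- the three indices
  have i1 : pin p H = pin p Λ.topologicalClosure := by
    refine pin_eq_of_inj p H.subtype H.subtype_injective ?_ hpC
    rw [Subgroup.range_subtype]
    exact hH.index_ne_zero
  have i2 : pin p H = p ^ ℓ := by
    rw [← pin_padic p ℓ]
    refine pin_eq_of_inj p ((AddMonoidHom.toMultiplicative H'.subtype).comp e'.toMonoidHom) ?_ ?_ hpZ
    · exact H'.subtype_injective.comp e'.injective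
    · have : ((AddMonoidHom.toMultiplicative H'.subtype).comp e'.toMonoidHom).range =
          AddSubgroup.toSubgroup H' := by
        ext a
        rw [MonoidHom.mem_range]
        constructor
        · rintro ⟨b, rfl⟩
          exact (Multiplicative.toAdd (e' b)).2
        · intro ha
          refine ⟨e'.symm (Multiplicative.ofAdd ⟨Multiplicative.toAdd a, ha⟩), ?_⟩
          show (AddMonoidHom.toMultiplicative H'.subtype) (e' (e'.symm _)) = a
          rw [e'.apply_symm_apply]
          rfl
      rw [this]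
      have h2 : (AddSubgroup.toSubgroup H').index = H'.index := by
        rfl
      rw [h2]
      exact hH'.index_ne_zero
  have i3 : pin p Λ = p ^ ℓ := by
    rw [← pin_int p ℓ]
    refine pin_eq_of_inj p e.toMonoidHom e.injective ?_ hpI
    have : e.toMonoidHom.range = ⊤ := MonoidHom.range_eq_top.mpr e.surjective
    rw [this, Subgroup.index_top]
    exact one_ne_zero
  -- the subgroup of `p`-th powers of the closure
  set P : Subgroup A := Λ.topologicalClosure.map (powMonoidHom p) with hP
  have hPc : IsClosed (P : Set A) := by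
    rw [hP, Subgroup.coe_map]
    exact (hC.image (continuous_pow p)).isClosed
  have hPC : P ≤ Λ.topologicalClosure := by
    rintro _ ⟨a, ha, rfl⟩
    exact pow_mem ha p
  have hΛC : Λ ≤ Λ.topologicalClosure := Subgroup.le_topologicalClosure Λ
  have hxP : x ∈ P := by
    have : closure ((fun y => y ^ p) '' (Λ : Set A)) ⊆ (P : Set A) := by
      refine closure_minimal ?_ hPc
      rintro _ ⟨a, ha, rfl⟩
      exact ⟨a, hΛC ha, rfl⟩
    exact this hxc
  have hlt : (powMonoidHom p : Λ →* Λ).range < P.subgroupOf Λ := by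
    refine lt_of_le_of_ne ?_ ?_
    · rintro _ ⟨a, rfl⟩
      rw [Subgroup.mem_subgroupOf]
      exact ⟨a, hΛC a.2, rfl⟩
    · intro h
      have hx' : (⟨x, hxΛ⟩ : Λ) ∈ P.subgroupOf Λ := hxP
      rw [← h] at hx'
      obtain ⟨a, ha⟩ := hx'
      exact hxn a a.2 (congrArg Subtype.val ha)
  have hfi : (powMonoidHom p : Λ →* Λ).range.FiniteIndex := by
    refine ⟨?_⟩
    have : (powMonoidHom p : Λ →* Λ).range.index = p ^ ℓ := i3
    rw [this]
    exact pow_ne_zero _ hp0
  have hlt' : (P.subgroupOf Λ).index < p ^ ℓ := by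
    rw [← i3]
    exact Subgroup.index_strictAnti hlt
  have hfi' : (P.subgroupOf Λ).FiniteIndex := Subgroup.finiteIndex_of_le hlt.le
  -- `Λ P` is closed
  have hsup : Λ ⊔ P = Λ.topologicalClosure := by
    refine le_antisymm (sup_le hΛC hPC) ?_
    have hfinq : Finite (Λ ⧸ P.subgroupOf Λ) := Subgroup.finite_quotient_of_finiteIndex
    have hcov : (Λ : Set A) ⊆ ⋃ q : Λ ⧸ P.subgroupOf Λ, {a : A | ((q.out : Λ) : A)⁻¹ * a ∈ P} := by
      intro a ha
      rw [Set.mem_iUnion]
      refine ⟨((⟨a, ha⟩ : Λ) : Λ ⧸ P.subgroupOf Λ), ?_⟩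
      have h := QuotientGroup.out_eq' (((⟨a, ha⟩ : Λ) : Λ ⧸ P.subgroupOf Λ))
      rw [QuotientGroup.eq] at h
      exact h
    have hcl : IsClosed (⋃ q : Λ ⧸ P.subgroupOf Λ, {a : A | ((q.out : Λ) : A)⁻¹ * a ∈ P}) := by
      refine isClosed_iUnion_of_finite fun q => ?_
      exact hPc.preimage (continuous_const.mul continuous_id)
    intro a ha
    have ha' : a ∈ closure (Λ : Set A) := ha
    have := closure_minimal hcov hcl ha'
    rw [Set.mem_iUnion] at this
    obtain ⟨q, hq⟩ := this
    have h1 : a = ((q.out : Λ) : A) * (((q.out : Λ) : A)⁻¹ * a) := by group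
    rw [h1]
    exact mul_mem ((le_sup_left : Λ ≤ Λ ⊔ P) (q.out : Λ).2) ((le_sup_right : P ≤ Λ ⊔ P) hq)
  have i4 : pin p Λ.topologicalClosure = P.relIndex Λ.topologicalClosure := by
    unfold pin Subgroup.relIndex
    congr 1
    ext a
    rw [MonoidHom.mem_range, Subgroup.mem_subgroupOf]
    constructor
    · rintro ⟨b, rfl⟩
      exact ⟨b, b.2, rfl⟩
    · rintro ⟨b, hb, hba⟩
      exact ⟨⟨b, hb⟩, Subtype.ext hba⟩
  have i5 : P.relIndex Λ.topologicalClosure = (P.subgroupOf Λ).index := by
    rw [← hsup, Subgroup.relIndex_sup_right]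
    rfl
  rw [i1, i4, i5] at i2
  omega

end Pool.Agent.W212.PCINDEX
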